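import Pool.Agent.Y321.BT.Top
import Pool.Agent.TH97.ST.App

/-!
# The group `A / ⟨z ^ p⟩` of Adian and Olshanskii satisfies the hypotheses

For MP_727953_al; an adaptation of `Pool.Agent.TH97.ST.exists_alg`.
-/

set_option autoImplicit false

open Set Cardinal

namespace Pool.Agent.Y321.BT

open Pool.Agent.TH54.BU Pool.Agent.TH97.ST

/-- in a group of prime exponent an element which normalises a cyclic subgroup centralises it -/
lemma conj_prime {G : Type*} [Group G] {p : ℕ} (hp : p.Prime) {X Y : G} (hX : X ^ p = 1)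
    (hY : Y ^ p = 1) {m : ℤ} (h : Y * X * Y⁻¹ = X ^ m) : ¬ ¬ Y * X = X * Y := by
  have : Fact p.Prime := ⟨hp⟩
  intro hne
  apply hne
  have h1 : ∀ n : ℕ, Y ^ n * X * (Y ^ n)⁻¹ = X ^ (m ^ n) := by
    intro n
    induction n with
    | zero => simp
    | succ n ih =>
      have e : Y ^ (n + 1) * X * (Y ^ (n + 1))⁻¹ = Y * (Y ^ n * X * (Y ^ n)⁻¹) * Y⁻¹ := by
        rw [pow_succ']; group
      rw [e, ih, ← conj_zpow, h, ← zpow_mul, pow_succ']
  by_cases hX1 : X = 1
  · rw [hX1, mul_one, one_mul]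
  have ho : orderOf X = p := orderOf_eq_prime hX hX1
  have h2 := h1 p
  rw [hY, one_mul, inv_one, mul_one] at h2
  have h3 : X ^ (m ^ p - 1) = 1 := by
    rw [zpow_sub, zpow_one, ← h2, mul_inv_cancel]
  have h4 : (p : ℤ) ∣ m ^ p - 1 := by
    have h4' := orderOf_dvd_iff_zpow_eq_one.2 h3
    rwa [ho] at h4'
  have h5 : (m : ZMod p) = 1 := by
    have h6 : ((m ^ p - 1 : ℤ) : ZMod p) = 0 := (ZMod.intCast_zmod_eq_zero_iff_dvd _ _).2 h4
    push_cast at h6
    rw [ZMod.pow_card] at h6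
    exact sub_eq_zero.1 h6
  have h7 : (p : ℤ) ∣ m - 1 := by
    rw [← ZMod.intCast_zmod_eq_zero_iff_dvd]
    push_cast
    rw [h5, sub_self]
  have h8 : X ^ (m - 1) = 1 := by
    rw [← orderOf_dvd_iff_zpow_eq_one, ho]
    exact h7
  have h9 : X ^ m = X := by
    rw [zpow_sub, zpow_one, mul_inv_eq_one] at h8
    exact h8
  rw [h9] at h
  exact mul_inv_eq_iff_eq_mul.1 h

/-- for every infinite set there is a group of the same cardinality which satisfies the algebraic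
hypotheses -/
theorem exists_alg2 {p : ℕ} (hp : p.Prime) (h : Burn p) (I : Type) [Infinite I] :
    ∃ (H : Type) (_ : Group H), Nonempty (Alg2 H p) ∧ #H = #I := by
  obtain ⟨A, _, z, φ, hφ, hker, hz, hzinf, hpow, hcomm⟩ := h I
  have hzc : z ∈ Subgroup.center A := Subgroup.mem_center_iff.2 fun g => hz g
  have hPn : (Subgroup.zpowers (z ^ p)).Normal := by
    refine ⟨fun n hn g => ?_⟩
    have hnc : n ∈ Subgroup.center A := by
      have : Subgroup.zpowers (z ^ p) ≤ Subgroup.center A := by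
        rw [Subgroup.zpowers_le]
        exact pow_mem hzc p
      exact this hn
    rw [Subgroup.mem_center_iff.1 hnc g, mul_inv_cancel_right]
    exact hn
  set P : Subgroup A := Subgroup.zpowers (z ^ p) with hP
  have hPz : P ≤ Subgroup.zpowers z := by
    rw [hP, Subgroup.zpowers_le]
    exact pow_mem (Subgroup.mem_zpowers z) p
  have hzk : ∀ k : ℤ, ((z ^ k : A) : A ⧸ P) = 1 ↔ (p : ℤ) ∣ k := by
    intro k
    rw [QuotientGroup.eq_one_iff, hP, Subgroup.mem_zpowers_iff]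
    constructor
    · rintro ⟨j, hj⟩
      rw [← zpow_natCast, ← zpow_mul] at hj
      have hinj : Function.Injective fun n : ℤ => z ^ n := by
        rw [injective_zpow_iff_not_isOfFinOrder]
        exact hzinf
      exact ⟨j, (hinj hj).symm⟩
    · rintro ⟨j, rfl⟩
      exact ⟨j, by rw [← zpow_natCast, ← zpow_mul]⟩
  -- membership in the image of `⟨z⟩`
  have hmem : ∀ a : A, (a : A ⧸ P) ∈ Subgroup.zpowers ((z : A) : A ⧸ P) ↔
      a ∈ Subgroup.zpowers z := by
    intro a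
    constructor
    · rintro ⟨j, hj⟩
      have h1 : ((z ^ j : A) : A ⧸ P) = (a : A ⧸ P) := by rw [← hj]; simp
      rw [QuotientGroup.eq] at h1
      have h2 := hPz h1
      have h3 : a = z ^ j * ((z ^ j)⁻¹ * a) := by group
      rw [h3]
      exact mul_mem ⟨j, rfl⟩ h2
    · rintro ⟨j, rfl⟩
      exact ⟨j, by simp⟩
  have hCp : ∀ x ∈ Subgroup.zpowers ((z : A) : A ⧸ P), x ^ p = 1 := by
    rintro _ ⟨j, rfl⟩
    have h1 : ((z : A) : A ⧸ P) ^ p = 1 := by
      have := (hzk p).2 (dvd_refl _)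
      rw [zpow_natCast] at this
      exact this
    change (((z : A) : A ⧸ P) ^ j) ^ p = 1
    rw [← zpow_natCast, ← zpow_mul, mul_comm, zpow_mul, zpow_natCast, h1, one_zpow]
  have hCfin : (Subgroup.zpowers ((z : A) : A ⧸ P) : Set (A ⧸ P)).Finite := by
    apply finite_zpowers.2
    exact isOfFinOrder_iff_pow_eq_one.2 ⟨p, hp.pos, hCp _ (Subgroup.mem_zpowers _)⟩
  have hpw : ∀ x : A ⧸ P, x ∈ Subgroup.zpowers ((z : A) : A ⧸ P) ∨
      (x ^ p ∈ Subgroup.zpowers ((z : A) : A ⧸ P) ∧ x ^ p ≠ 1) := by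
    intro x
    obtain ⟨a, rfl⟩ := QuotientGroup.mk_surjective x
    by_cases ha : a ∈ Subgroup.zpowers z
    · left
      exact (hmem a).2 ha
    · right
      obtain ⟨k, hk, hpk⟩ := hpow a ha
      have h1 : ((a : A ⧸ P)) ^ p = ((z ^ k : A) : A ⧸ P) := by
        rw [← hk]; rfl
      rw [h1]
      exact ⟨⟨k, by simp⟩, fun h2 => hpk ((hzk k).1 h2)⟩
  -- the generators
  choose s hs using hφ
  set g : I → A := fun i => s (FreeGroup.of i : FreeGroup I) with hg
  have hφg : ∀ i, φ (g i) = (FreeGroup.of i : FreeGroup I) := fun i => hs _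
  obtain ⟨i₀, i₁, hi⟩ := exists_pair_ne I
  have hgn : ∀ i j, i ≠ j → ¬ φ (g i) * φ (g j) = φ (g j) * φ (g i) := by
    intro i j hij
    rw [hφg, hφg]
    exact hcomm i j hij
  have hgz : ∀ i, g i ∉ Subgroup.zpowers z := by
    intro i hi'
    obtain ⟨j, hj⟩ := exists_ne i
    rw [← hker, MonoidHom.mem_ker] at hi'
    apply hgn j i hj
    rw [hi', mul_one, one_mul]
  -- the `p`-th powers in the free group of exponent `p`
  have hFp : ∀ w : FreeGroup I ⧸ powSub (FreeGroup I) p, w ^ p = 1 := by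
    intro w
    obtain ⟨v, rfl⟩ := QuotientGroup.mk_surjective w
    have h1 : ((v : FreeGroup I) : FreeGroup I ⧸ powSub (FreeGroup I) p) ^ p =
        ((v ^ p : FreeGroup I) : FreeGroup I ⧸ powSub (FreeGroup I) p) := rfl
    rw [h1, QuotientGroup.eq_one_iff]
    exact Subgroup.subset_normalClosure ⟨v, rfl⟩
  have hconj : g i₁ * g i₀ * (g i₁)⁻¹ ∉ Subgroup.zpowers z := by
    rintro ⟨k, hk⟩
    apply hgz i₀
    refine ⟨k, ?_⟩
    have hzk' : ∀ a : A, a * z ^ k = z ^ k * a := fun a => (Commute.zpow_right (hz a) k)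
    change z ^ k = g i₁ * g i₀ * (g i₁)⁻¹ at hk
    change z ^ k = g i₀
    have h1 : (g i₁)⁻¹ * z ^ k * g i₁ = g i₀ := by rw [hk]; group
    rw [hzk', inv_mul_cancel_right] at h1
    exact h1
  have hnc : ¬ (g i₀ * (g i₁ * g i₀ * (g i₁)⁻¹) * (g i₀)⁻¹ * (g i₁ * g i₀ * (g i₁)⁻¹)⁻¹ ∈
      Subgroup.zpowers z) := by
    intro hmemz
    have h1 := mem_of_comm φ hp hker hz hzinf hpow (hgz i₀) hconj hmemz
    obtain ⟨m, hm⟩ := Subgroup.mem_zpowers_iff.1 h1
    rw [map_mul, map_mul, map_inv] at hm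
    set X := φ (g i₀) with hX
    set Y := φ (g i₁) with hY
    exact conj_prime hp (hFp X) (hFp Y) hm.symm (hgn i₁ i₀ hi.symm)
  have hmemc : ∀ x : A, ((x : A) : A ⧸ P) * ((g i₀ : A) : A ⧸ P) * ((x : A) : A ⧸ P)⁻¹ *
      ((g i₀ : A) : A ⧸ P)⁻¹ ∈ Subgroup.zpowers ((z : A) : A ⧸ P) →
      x * g i₀ * x⁻¹ * (g i₀)⁻¹ ∈ Subgroup.zpowers z := by
    intro x hx
    rw [← hmem]
    exact hx
  classical
  let D : Alg2 (A ⧸ P) p :=
    { Z := Subgroup.zpowers ((z : A) : A ⧸ P)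
      fin := hCfin
      pow := by
        intro u
        rcases hpw u with h1 | h1
        · rw [hCp u h1]; exact one_mem _
        · exact h1.1
      tor := by
        intro u hu
        rcases hpw u with h1 | h1
        · exact h1
        · exact absurd hu h1.2
      zp := hCp
      a := ((g i₀ : A) : A ⧸ P)
      cent := by
        have hfin0 : (Subgroup.zpowers ((g i₀ : A) : A ⧸ P) : Set (A ⧸ P)).Finite := by
          apply finite_zpowers.2
          refine isOfFinOrder_iff_pow_eq_one.2 ⟨p * p, Nat.mul_pos hp.pos hp.pos, ?_⟩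
          rw [pow_mul]
          rcases hpw ((g i₀ : A) : A ⧸ P) with h1 | h1
          · rw [hCp _ h1, one_pow]
          · exact hCp _ h1.1
        refine (Set.Finite.image2 (fun x y : A ⧸ P => x * y) hCfin hfin0).subset ?_
        intro x hx
        obtain ⟨a, rfl⟩ := QuotientGroup.mk_surjective x
        have h1 := hmemc a hx
        by_cases haz : a ∈ Subgroup.zpowers z
        · exact ⟨_, (hmem a).2 haz, 1, one_mem _, by simp⟩
        · have h3 : g i₀ * a * (g i₀)⁻¹ * a⁻¹ ∈ Subgroup.zpowers z := by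
            have h4 := inv_mem h1
            have e : (a * g i₀ * a⁻¹ * (g i₀)⁻¹)⁻¹ = g i₀ * a * (g i₀)⁻¹ * a⁻¹ := by group
            rwa [e] at h4
          have h5 := mem_of_comm φ hp hker hz hzinf hpow (hgz i₀) haz h3
          obtain ⟨m, hm⟩ := Subgroup.mem_zpowers_iff.1 h5
          have h6 : a * (g i₀ ^ m)⁻¹ ∈ φ.ker := by
            rw [MonoidHom.mem_ker, map_mul, map_inv, map_zpow, hm, mul_inv_cancel]
          rw [hker] at h6
          refine ⟨_, (hmem _).2 h6, _, ⟨m, rfl⟩, ?_⟩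
          change ((a * (g i₀ ^ m)⁻¹ : A) : A ⧸ P) * ((g i₀ : A) : A ⧸ P) ^ m = (a : A ⧸ P)
          have h7 : ((a * (g i₀ ^ m)⁻¹ : A) : A ⧸ P) * ((g i₀ ^ m : A) : A ⧸ P) = (a : A ⧸ P) := by
            rw [← QuotientGroup.mk_mul, inv_mul_cancel_right]
          exact h7
      nc := by
        intro u
        refine ⟨u * ((g i₁ : A) : A ⧸ P), fun h1 => ?_⟩
        have h2 : ((g i₀ : A) : A ⧸ P) * (((g i₁ : A) : A ⧸ P) * ((g i₀ : A) : A ⧸ P) *
            ((g i₁ : A) : A ⧸ P)⁻¹) = (((g i₁ : A) : A ⧸ P) * ((g i₀ : A) : A ⧸ P) *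
            ((g i₁ : A) : A ⧸ P)⁻¹) * ((g i₀ : A) : A ⧸ P) := by
          have h3 := congrArg (fun w => u⁻¹ * w * u) h1
          have e1 : u⁻¹ * (u * ((g i₀ : A) : A ⧸ P) * u⁻¹ * (u * ((g i₁ : A) : A ⧸ P) *
              ((g i₀ : A) : A ⧸ P) * (u * ((g i₁ : A) : A ⧸ P))⁻¹)) * u =
              ((g i₀ : A) : A ⧸ P) * (((g i₁ : A) : A ⧸ P) * ((g i₀ : A) : A ⧸ P) *
            ((g i₁ : A) : A ⧸ P)⁻¹) := by group
          have e2 : u⁻¹ * (u * ((g i₁ : A) : A ⧸ P) * ((g i₀ : A) : A ⧸ P) *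
              (u * ((g i₁ : A) : A ⧸ P))⁻¹ * (u * ((g i₀ : A) : A ⧸ P) * u⁻¹)) * u =
              (((g i₁ : A) : A ⧸ P) * ((g i₀ : A) : A ⧸ P) *
            ((g i₁ : A) : A ⧸ P)⁻¹) * ((g i₀ : A) : A ⧸ P) := by group
          rw [e1, e2] at h3
          exact h3
        have h4 : ((g i₀ * (g i₁ * g i₀ * (g i₁)⁻¹) * (g i₀)⁻¹ * (g i₁ * g i₀ * (g i₁)⁻¹)⁻¹ : A) :
            A ⧸ P) = 1 := by
          change ((g i₀ : A) : A ⧸ P) * (((g i₁ : A) : A ⧸ P) * ((g i₀ : A) : A ⧸ P) *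
            ((g i₁ : A) : A ⧸ P)⁻¹) * ((g i₀ : A) : A ⧸ P)⁻¹ * (((g i₁ : A) : A ⧸ P) *
            ((g i₀ : A) : A ⧸ P) * ((g i₁ : A) : A ⧸ P)⁻¹)⁻¹ = 1
          rw [h2]
          group
        rw [QuotientGroup.eq_one_iff] at h4
        exact hnc (hPz h4) }
  refine ⟨A ⧸ P, inferInstance, ⟨D⟩, le_antisymm ?_ ?_⟩
  · -- upper bound
    have h1 : #(A ⧸ P) ≤ #A := mk_le_of_surjective QuotientGroup.mk_surjective
    have h2 : #A ≤ #((FreeGroup I ⧸ powSub (FreeGroup I) p) × ℤ) := by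
      refine mk_le_of_surjective (f := fun q => s q.1 * z ^ q.2) ?_
      intro a
      have h3 : (s (φ a))⁻¹ * a ∈ φ.ker := by
        rw [MonoidHom.mem_ker, map_mul, map_inv, hs, inv_mul_cancel]
      rw [hker] at h3
      obtain ⟨k, hk⟩ := h3
      refine ⟨(φ a, k), ?_⟩
      change s (φ a) * z ^ k = a
      change z ^ k = (s (φ a))⁻¹ * a at hk
      rw [hk, mul_inv_cancel_left]
    have h3 : #((FreeGroup I ⧸ powSub (FreeGroup I) p)) ≤ #I := by
      refine (mk_le_of_surjective QuotientGroup.mk_surjective).trans ?_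
      rw [mk_freeGroup]
      exact max_le le_rfl (aleph0_le_mk I)
    refine h1.trans (h2.trans ?_)
    rw [mk_prod, lift_id, lift_id]
    refine (mul_le_mul' h3 (mk_le_aleph0 (α := ℤ))).trans ?_
    rw [mul_eq_left (aleph0_le_mk I) (aleph0_le_mk I) aleph0_ne_zero]
  · -- lower bound
    refine mk_le_of_injective (f := fun i => ((g i : A) : A ⧸ P)) ?_
    intro i j hij
    by_contra hne
    have h2 : ((g i : A) : A ⧸ P) = ((g j : A) : A ⧸ P) := hij
    rw [QuotientGroup.eq] at h2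
    have h3 := hPz h2
    rw [← hker, MonoidHom.mem_ker, map_mul, map_inv, inv_mul_eq_one] at h3
    apply hgn i j hne
    rw [h3]


end Pool.Agent.Y321.BT
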