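import Pool.Agent.TH97.ST.Wr

/-!
# Topologies on wreath products in which two conjugation maps are continuous

For MP_727953_al (uses the wreath product of `Pool.Agent.TH97.ST.Wr`).
-/

set_option autoImplicit false

open Topology Set

namespace Pool.Agent.Y321.BT

open Pool.Agent.TH97.ST Pool.Agent.TH97.ST.Wr

/-- algebraic hypotheses on the group `H` with a distinguished element `a` -/
structure Alg2 (H : Type*) [Group H] (p : ℕ) where
  Z : Subgroup H
  fin : (Z : Set H).Finite
  pow : ∀ u : H, u ^ p ∈ Z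
  tor : ∀ u : H, u ^ p = 1 → u ∈ Z
  zp : ∀ u ∈ Z, u ^ p = 1
  a : H
  cent : {h : H | h * a * h⁻¹ * a⁻¹ ∈ Z}.Finite
  nc : ∀ u : H, ∃ v : H, u * a * u⁻¹ * (v * a * v⁻¹) ≠ v * a * v⁻¹ * (u * a * u⁻¹)

namespace Alg2

variable {H : Type*} [Group H] {p : ℕ}

/-- the finite set of the elements of the base group with all coordinates in `X` -/
def FX (X : Set H) : Set (Wr H p) := {x | x.r = 0 ∧ ∀ k, x.l k ∈ X}

omit [Group H] in
lemma FX_fin [Fact p.Prime] {X : Set H} (hX : X.Finite) : (FX X : Set (Wr H p)).Finite := by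
  have : NeZero p := ⟨(Fact.out : p.Prime).ne_zero⟩
  have h1 : {g : ZMod p → H | ∀ k, g k ∈ X}.Finite :=
    Set.Finite.pi' fun _ => hX
  refine (h1.image fun g : ZMod p → H => (⟨g, 0⟩ : Wr H p)).subset ?_
  rintro x ⟨hx, hx'⟩
  refine ⟨x.l, hx', ?_⟩
  ext k
  · rfl
  · exact hx.symm

lemma pow_r (x : Wr H p) (n : ℕ) : (x ^ n).r = n * x.r := by
  induction n with
  | zero => simp
  | succ n ih => rw [pow_succ, mul_r, ih]; push_cast; ring

lemma pow_l (x : Wr H p) (hx : x.r = 0) (n : ℕ) (k : ZMod p) : (x ^ n).l k = (x.l k) ^ n := by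
  induction n with
  | zero => simp
  | succ n ih => rw [pow_succ, mul_l, ih, pow_r, hx, mul_zero, sub_zero, pow_succ]

/-- the wreath product has exponent dividing `p ^ 3` -/
lemma exponent (D : Alg2 H p) (x : Wr H p) : x ^ (p ^ 3) = 1 := by
  have h0 : (x ^ p).r = 0 := by rw [pow_r, ZMod.natCast_self, zero_mul]
  have e : p ^ 3 = p * p ^ 2 := by ring
  rw [e, pow_mul]
  ext k
  · rw [pow_l _ h0, one_l, pow_two, pow_mul]
    exact D.zp _ (D.pow _)
  · rw [pow_r, h0, mul_zero]; rfl

variable [Fact p.Prime]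

lemma phi_mem (D : Alg2 H p) (h2 : p ≠ 2) (i : ZMod p) (u : H) :
    f^[p] (at_ i u : Wr H p) ∈ (FX (D.Z : Set H) : Set (Wr H p)) := by
  rw [f_iter_p h2]
  refine ⟨rfl, fun k => ?_⟩
  change u ^ (if k - i = 0 then (0 : ℤ) else (-1) ^ (k - i).val * (p.choose (k - i).val : ℤ)) ∈ D.Z
  split_ifs with h
  · rw [zpow_zero]; exact D.Z.one_mem
  · have h1 : (k - i).val ≠ 0 := by rwa [Ne, ZMod.val_eq_zero]
    have : NeZero p := ⟨(Fact.out : p.Prime).ne_zero⟩
    obtain ⟨m, hm⟩ := (Fact.out : p.Prime).dvd_choose_self h1 (ZMod.val_lt (k - i))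
    rw [hm, mul_comm]
    push_cast
    rw [mul_assoc, zpow_mul, zpow_natCast]
    exact Subgroup.zpow_mem _ (D.pow u) _

lemma of_phi (D : Alg2 H p) (h2 : p ≠ 2) (i : ZMod p) (u : H)
    (h : f^[p] (at_ i u : Wr H p) = 1) : u ∈ D.Z := by
  have hp : 1 < p := (Fact.out : p.Prime).one_lt
  have : Fact (1 < p) := ⟨hp⟩
  rw [f_iter_p h2] at h
  have h1 := congrFun (congrArg Wr.l h) (i + 1)
  change u ^ (if i + 1 - i = 0 then (0 : ℤ) else
    (-1) ^ (i + 1 - i).val * (p.choose (i + 1 - i).val : ℤ)) = 1 at h1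
  rw [add_sub_cancel_left, if_neg one_ne_zero, ZMod.val_one, Nat.choose_one_right, pow_one,
    neg_one_mul, zpow_neg, inv_eq_one, zpow_natCast] at h1
  exact D.tor u h1

/-- **Topologies on the wreath product in which the translations and the two maps
`x ↦ x t x⁻¹` and `x ↦ x a x⁻¹` are continuous are discrete.** -/
theorem discrete (D : Alg2 H p) (h2 : p ≠ 2) (τ : TopologicalSpace (Wr H p)) [T1Space (Wr H p)]
    (hl : ∀ a : Wr H p, Continuous fun x => a * x) (hr : ∀ a : Wr H p, Continuous fun x => x * a)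
    (ht : Continuous fun x : Wr H p => x * t * x⁻¹)
    (ha : Continuous fun x : Wr H p => x * at_ 0 D.a * x⁻¹) : τ = ⊥ := by
  have hNZ : NeZero p := ⟨(Fact.out : p.Prime).ne_zero⟩
  have hp : 1 < p := (Fact.out : p.Prime).one_lt
  have hF1 : Fact (1 < p) := ⟨hp⟩
  -- conjugation maps of conjugates
  have hcv : ∀ (i : ZMod p) (v : H),
      Continuous fun x : Wr H p => x * at_ i (v * D.a * v⁻¹) * x⁻¹ := by
    intro i v
    have e : (at_ i (v * D.a * v⁻¹) : Wr H p) = ⟨fun _ => v, i⟩ * at_ 0 D.a * ⟨fun _ => v, i⟩⁻¹ := by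
      rw [conj_at, zero_add]
    have h1 := ha.comp (hr (⟨fun _ => v, i⟩ : Wr H p))
    refine h1.congr fun x => ?_
    simp only [Function.comp_apply]
    rw [e]
    group
  have hcc : ∀ (i : ZMod p) (v : H), Continuous fun x : Wr H p =>
      x * at_ i (v * D.a * v⁻¹) * x⁻¹ * (at_ i (v * D.a * v⁻¹))⁻¹ := fun i v =>
    (hr _).comp (hcv i v)
  have hca : ∀ i : ZMod p, Continuous fun x : Wr H p =>
      x * at_ i D.a * x⁻¹ * (at_ i D.a)⁻¹ := by
    intro i
    have h1 := hcc i 1
    simpa using h1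
  have hf : Continuous (f : Wr H p → Wr H p) := (hr _).comp ht
  -- the cosets of the base group are closed
  have hE : ∀ s : ZMod p, IsClosed {x : Wr H p | x.r = s} := by
    intro s
    have e : {x : Wr H p | x.r = s} = ⋂ v : H, ⋂ j : {j : ZMod p // j ≠ s},
        {x : Wr H p | (x * at_ 0 D.a * x⁻¹) * at_ j.1 (v * D.a * v⁻¹) * (x * at_ 0 D.a * x⁻¹)⁻¹ *
          (at_ j.1 (v * D.a * v⁻¹))⁻¹ = 1} := by
      ext x
      simp only [mem_ofPred_eq, mem_iInter]
      constructor
      · intro hx v j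
        rw [conj_at x 0, zero_add]
        rw [comm_at _ rfl]
        have h5 : (at_ x.r (x.l x.r * D.a * (x.l x.r)⁻¹) : Wr H p).l j.1 = 1 := by
          rw [at_l, Pi.mulSingle_eq_of_ne (by rw [hx]; exact j.2)]
        rw [h5]
        ext k
        · simp
        · rfl
      · intro hx
        by_contra hne
        obtain ⟨v, hv⟩ := D.nc (x.l x.r)
        have h1 := hx v ⟨x.r, hne⟩
        rw [conj_at x 0, zero_add, comm_at _ rfl] at h1
        have h3 := congrFun (congrArg Wr.l h1) x.r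
        rw [at_l, at_l, Pi.mulSingle_eq_same, Pi.mulSingle_eq_same, one_l] at h3
        apply hv
        rw [mul_inv_eq_one, mul_inv_eq_iff_eq_mul] at h3
        exact h3
    rw [e]
    refine isClosed_iInter fun v => isClosed_iInter fun j => ?_
    exact isClosed_singleton.preimage ((hcc j.1 v).comp ha)
  have hB : IsOpen {x : Wr H p | x.r = 0} := by
    have e : {x : Wr H p | x.r = 0} = (⋃ s : {s : ZMod p // s ≠ 0}, {x : Wr H p | x.r = s.1})ᶜ := by
      ext x
      simp only [mem_ofPred_eq, mem_compl_iff, mem_iUnion, not_exists]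
      constructor
      · intro hx s hs
        exact s.2 (by rw [← hs, hx])
      · intro hx
        by_contra hne
        exact hx ⟨x.r, hne⟩ rfl
    rw [e]
    exact (isClosed_iUnion_of_finite fun s : {s : ZMod p // s ≠ 0} => hE s.1).isOpen_compl
  have hZfin : (FX (D.Z : Set H) : Set (Wr H p)).Finite := FX_fin D.fin
  -- the maps into the finite set
  set Φ : ZMod p → Wr H p → Wr H p := fun i x =>
    f^[p] (x * at_ i D.a * x⁻¹ * (at_ i D.a)⁻¹) with hΦ
  have hΦc : ∀ i, Continuous (Φ i) := fun i => (hf.iterate p).comp (hca i)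
  have hΦ1 : ∀ i, Φ i 1 = 1 := by
    intro i
    have h1 : ∀ n, f^[n] (1 : Wr H p) = 1 := by
      intro n
      induction n with
      | zero => rfl
      | succ n ih => rw [Function.iterate_succ_apply', ih, f_one]
    have h3 : (1 : Wr H p) * at_ i D.a * (1 : Wr H p)⁻¹ * (at_ i D.a)⁻¹ = 1 := by group
    simp only [hΦ]
    rw [h3, h1]
  have hU : ∀ i, IsOpen {x : Wr H p | x.r = 0 ∧ Φ i x = 1} := by
    intro i
    have e : {x : Wr H p | x.r = 0 ∧ Φ i x = 1} =
        {x : Wr H p | x.r = 0} ∩ (Φ i ⁻¹' (FX (D.Z : Set H) \ {1}))ᶜ := by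
      ext x
      simp only [mem_ofPred_eq, mem_inter_iff, mem_compl_iff, mem_preimage, mem_sdiff,
        mem_singleton_iff, not_and, not_not]
      constructor
      · rintro ⟨hx, hx'⟩
        exact ⟨hx, fun _ => hx'⟩
      · rintro ⟨hx, hx'⟩
        refine ⟨hx, hx' ?_⟩
        simp only [hΦ]
        rw [comm_at x hx]
        exact D.phi_mem h2 _ _
    rw [e]
    exact hB.inter ((hZfin.subset sdiff_subset).isClosed.preimage (hΦc i)).isOpen_compl
  -- the finite open set
  set X : Set H := {h : H | h * D.a * h⁻¹ * D.a⁻¹ ∈ D.Z} with hX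
  have hXfin : (FX X : Set (Wr H p)).Finite := FX_fin D.cent
  set U : Set (Wr H p) := {x : Wr H p | x.r = 0} ∩
    ⋂ i : ZMod p, {x : Wr H p | x.r = 0 ∧ Φ i x = 1} with hUd
  have hUo : IsOpen U := hB.inter (isOpen_iInter_of_finite fun i => hU i)
  have hUF : U ⊆ FX X := by
    rintro x ⟨hx, hx'⟩
    refine ⟨hx, fun k => ?_⟩
    simp only [mem_iInter] at hx'
    have h1 := (hx' k).2
    simp only [hΦ] at h1
    rw [comm_at x hx] at h1
    exact D.of_phi h2 _ _ h1
  have h1U : (1 : Wr H p) ∈ U := by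
    refine ⟨rfl, ?_⟩
    simp only [mem_iInter]
    intro i
    exact ⟨rfl, hΦ1 i⟩
  have h1 : IsOpen ({1} : Set (Wr H p)) := by
    have e : ({1} : Set (Wr H p)) = U \ (FX X \ {1}) := by
      ext x
      constructor
      · rintro rfl
        exact ⟨h1U, fun h => h.2 rfl⟩
      · rintro ⟨h3, h4⟩
        by_contra h5
        exact h4 ⟨hUF h3, h5⟩
    rw [e]
    exact hUo.sdiff (hXfin.subset sdiff_subset).isClosed
  -- translations
  apply le_antisymm _ bot_le
  intro s _
  have e : s = ⋃ g ∈ s, (fun x => g⁻¹ * x) ⁻¹' {1} := by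
    ext x
    simp only [mem_iUnion, mem_preimage, mem_singleton_iff, exists_prop]
    constructor
    · intro hx
      exact ⟨x, hx, inv_mul_cancel x⟩
    · rintro ⟨g, hg, hgx⟩
      rw [inv_mul_eq_one] at hgx
      rwa [← hgx]
  change IsOpen s
  rw [e]
  exact isOpen_biUnion fun g _ => h1.preimage (hl g⁻¹)

end Alg2

/-- in a group of finite exponent a `T₀` topology with continuous left translations is `T₁` -/
lemma t1_of_t0 {G : Type*} [Group G] {n : ℕ} (hn : 0 < n) (hexp : ∀ g : G, g ^ n = 1)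
    (τ : TopologicalSpace G) [T0Space G] (hl : ∀ a : G, Continuous fun x => a * x) :
    T1Space G := by
  rw [t1Space_iff_specializes_imp_eq]
  intro x y hxy
  set g := x⁻¹ * y with hg
  have h1 : (1 : G) ⤳ g := by
    have := hxy.map (hl x⁻¹)
    simpa using this
  have h2 : ∀ k : ℕ, g ⤳ (g ^ (k + 1)) := by
    intro k
    induction k with
    | zero => rw [zero_add, pow_one]
    | succ k ih =>
      have h3 := h1.map (hl (g ^ (k + 1)))
      simp only [mul_one] at h3
      rw [pow_succ g (k + 1)]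
      exact ih.trans h3
  have h3 : g ⤳ (1 : G) := by
    have := h2 (n - 1)
    rwa [Nat.sub_add_cancel hn, hexp] at this
  have h4 : (1 : G) = g := (h1.antisymm h3).eq
  rw [hg, eq_inv_mul_iff_mul_eq, mul_one] at h4
  exact h4

end Pool.Agent.Y321.BT
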